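import Pool.Agent.PCO.StmtsA

/-!
Squad NTS / PCO, row BF2: basic facts on boxes, II.
-/

set_option autoImplicit false

open Matrix Filter Topology

namespace Pool.Agent.PCO.H23

open Pool.Agent.PFS Pool.Agent.PFJ Pool.Agent.PCO

variable {n : ℕ} {C : Set (V n)} {Γ : Subgroup (GL (Fin n) ℝ)}

theorem sum_erase_zero (w : Fin 3 → V n) : ∑ m ∈ Finset.univ.erase (0 : Fin 3), w m = w 1 + w 2 := by
  have h : Finset.univ.erase (0 : Fin 3) = {1, 2} := by decide
  rw [h, Finset.sum_pair (by decide)]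

theorem sum_erase_one (w : Fin 3 → V n) : ∑ m ∈ Finset.univ.erase (1 : Fin 3), w m = w 0 + w 2 := by
  have h : Finset.univ.erase (1 : Fin 3) = {0, 2} := by decide
  rw [h, Finset.sum_pair (by decide)]

theorem sum_erase_two (w : Fin 3 → V n) : ∑ m ∈ Finset.univ.erase (2 : Fin 3), w m = w 0 + w 1 := by
  have h : Finset.univ.erase (2 : Fin 3) = {0, 1} := by decide
  rw [h, Finset.sum_pair (by decide)]

/-- item 1 -/
theorem tri (hCC : CC C Γ) {U : Submodule ℝ (V n)} {v : V n}
    (hv : v ∈ LamC C Γ)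
    (hstr : ∀ x ∈ U, ∀ y ∈ U, x ∈ closure C → y ∈ closure C → Ind2 x y → Unt C U (x + y))
    (hC : ∀ f ∈ U, ∀ τ : ℝ, f + τ • v ∈ C ↔ (Unt C U f ∧ 0 < τ))
    (hlam : ∀ y ∈ U, y ∈ closure C → y ≠ 0 → y ∈ LamC C Γ ∧ y ∉ C)
    {e e' : V n} (he : Bd C U e) (he' : Bd C U e') (hi : Ind2 e e') :
    IsPES C Γ ![e, e', v] := by
  have hP : PCone C := hCC.toPCone
  have hun := hstr e he.1 e' he'.1 he.2.1 he'.2.1 hi
  have hone : ∀ f ∈ U, f + v ∈ C ↔ Unt C U f := by
    intro f hf
    have h1 := hC f hf 1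
    rw [one_smul] at h1
    rw [h1]
    exact ⟨fun h => h.1, fun h => ⟨h, one_pos⟩⟩
  refine ⟨Pool.Agent.PFS.H60.crt n C hP (Fin 3) _ ?_ ?_ ?_, ?_⟩
  · intro i
    fin_cases i
    · exact he.2.1
    · exact he'.2.1
    · exact hCC.hul.lamCl v hv
  · rw [Fin.sum_univ_three]
    exact (hone _ (U.add_mem he.1 he'.1)).mpr hun
  · intro i
    fin_cases i
    · show ¬ (∑ m ∈ Finset.univ.erase (0 : Fin 3), ![e, e', v] m) ∈ C
      rw [sum_erase_zero]
      intro h
      exact he'.2.2.2 ((hone e' he'.1).mp h)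
    · show ¬ (∑ m ∈ Finset.univ.erase (1 : Fin 3), ![e, e', v] m) ∈ C
      rw [sum_erase_one]
      intro h
      exact he.2.2.2 ((hone e he.1).mp h)
    · show ¬ (∑ m ∈ Finset.univ.erase (2 : Fin 3), ![e, e', v] m) ∈ C
      rw [sum_erase_two]
      refine (hlam (e + e') (U.add_mem he.1 he'.1) (hP.cl_add he.2.1 he'.2.1) ?_).2
      intro h0
      have h1 := hi 1 1 (by rw [one_smul, one_smul]; exact h0)
      exact one_ne_zero h1.1
  · intro i
    fin_cases i
    · exact (hlam e he.1 he.2.1 he.2.2.1).1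
    · exact (hlam e' he'.1 he'.2.1 he'.2.2.1).1
    · exact hv

/-- item 2 -/
theorem split (hP : PCone C) {U : Submodule ℝ (V n)} {f e : V n} (hf : Unt C U f)
    (he : Bd C U e) : ∃ (τ : ℝ) (e' : V n), 0 < τ ∧ Bd C U e' ∧ Ind2 e e' ∧
      f = τ • e + e' := by
  obtain ⟨heU, hec, he0, heu⟩ := he
  obtain ⟨B, hB, hnor⟩ := hP.normal
  have hen : 0 < ‖e‖ := norm_pos_iff.mpr he0
  set S : Set ℝ := {t : ℝ | 0 ≤ t ∧ f - t • e ∈ closure C} with hS
  have hScl : IsClosed S := by
    have h1 : IsClosed {t : ℝ | f - t • e ∈ closure C} :=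
      isClosed_closure.preimage (by fun_prop)
    exact isClosed_Ici.inter h1
  have hSne : S.Nonempty := ⟨0, le_rfl, by rw [zero_smul, sub_zero]; exact hf.2.1⟩
  have hSb : BddAbove S := by
    refine ⟨B * ‖f‖ / ‖e‖, ?_⟩
    rintro t ⟨ht0, ht⟩
    rw [le_div_iff₀ hen]
    have h1 := hnor (t • e) f (hP.cl_smul hec ht0) ht
    rwa [norm_smul, Real.norm_of_nonneg ht0] at h1
  have hmem : sSup S ∈ S := hScl.csSup_mem hSne hSb
  set τ := sSup S with hτ
  obtain ⟨hτ0, hτc⟩ := hmem
  have hunf := Pool.Agent.PFJ.H76.unf n C hP U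
  have hτpos : 0 < τ := by
    obtain ⟨ε, hε, hu⟩ := (hunf f hf).2.2.2.1 e heU
    exact hε.trans_le (le_csSup hSb ⟨hε.le, hu.2.1⟩)
  have heU' : f - τ • e ∈ U := U.sub_mem hf.1 (U.smul_mem _ heU)
  -- no positive multiple of `e` is equal to `f`
  have hno : ∀ c : ℝ, 0 < c → f ≠ c • e := by
    intro c hc hfc
    apply heu
    have h1 := (hunf f hf).1 c⁻¹ (inv_pos.mpr hc)
    rwa [hfc, smul_smul, inv_mul_cancel₀ hc.ne', one_smul] at h1
  have hne0 : f - τ • e ≠ 0 := fun h => hno τ hτpos (sub_eq_zero.mp h)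
  refine ⟨τ, f - τ • e, hτpos, ⟨heU', hτc, hne0, ?_⟩, ?_, by abel⟩
  · intro hu
    obtain ⟨ε, hε, hu'⟩ := (hunf _ hu).2.2.2.1 e heU
    have h1 : τ + ε ∈ S := by
      refine ⟨by linarith, ?_⟩
      have h2 : f - (τ + ε) • e = f - τ • e - ε • e := by
        rw [add_smul]
        abel
      rw [h2]
      exact hu'.2.1
    have h2 := le_csSup hSb h1
    linarith
  · intro a b hab
    have hb : b = 0 := by
      by_contra hb
      -- `f - τ e = c e`
      have h1 : f - τ • e = (-(a / b)) • e := by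
        have h2 : b • (f - τ • e) = -(a • e) := by
          rw [add_comm] at hab
          exact eq_neg_of_add_eq_zero_left hab
        have h3 : f - τ • e = b⁻¹ • (b • (f - τ • e)) := by
          rw [smul_smul, inv_mul_cancel₀ hb, one_smul]
        rw [h3, h2, smul_neg, smul_smul, ← neg_smul]
        congr 1
        field_simp
      set c := -(a / b) with hc
      have hc0 : 0 ≤ c := by
        by_contra hneg
        push Not at hneg
        apply hne0
        apply hP.salient _ hτc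
        rw [h1, ← neg_smul]
        exact hP.cl_smul hec (by linarith)
      apply hno (τ + c) (by linarith)
      rw [add_smul, ← h1]
      abel
    refine ⟨?_, hb⟩
    rw [hb, zero_smul, add_zero] at hab
    exact (smul_eq_zero.mp hab).resolve_right he0

/-- units under the scaled action -/
theorem unt_act (hCC : CC C Γ) (U : Submodule ℝ (V n)) {g : GL (Fin n) ℝ} (hg : g ∈ Γ) {s : ℝ}
    (hs : 0 < s) (y : V n) : Unt C (img g U) (s • act g y) ↔ Unt C U y := by
  have himg := (Pool.Agent.PFJ.H32.img n).2.1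
  have hmem : s • act g y ∈ img g U ↔ y ∈ U := by
    rw [Submodule.smul_mem_iff _ hs.ne', himg]
  constructor
  · rintro ⟨h1, h2, h3⟩
    refine ⟨hmem.mp h1, (hCC.sact_cl_iff hg hs).mp h2, fun z hz => ?_⟩
    obtain ⟨M, hM, h4⟩ := h3 (s • act g z) ((img g U).smul_mem s ((himg g U z).mpr hz))
    refine ⟨M, hM, ?_⟩
    rw [← hCC.sact_cl_iff hg hs, CC.act_sub, CC.act_smul, smul_sub, smul_comm s M]
    exact h4
  · rintro ⟨h1, h2, h3⟩
    refine ⟨hmem.mpr h1, (hCC.sact_cl_iff hg hs).mpr h2, fun z hz => ?_⟩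
    obtain ⟨z', hz', rfl⟩ := mem_img.mp hz
    obtain ⟨M, hM, h4⟩ := h3 (s⁻¹ • z') (U.smul_mem _ hz')
    refine ⟨M, hM, ?_⟩
    have h5 : M • s • act g y - act g z' = s • act g (M • y - s⁻¹ • z') := by
      rw [CC.act_sub, CC.act_smul, CC.act_smul, smul_sub, smul_smul s s⁻¹,
        mul_inv_cancel₀ hs.ne', one_smul, smul_comm s M]
    rw [h5, hCC.sact_cl_iff hg hs]
    exact h4

/-- boundary elements under the scaled action -/
theorem bd_act (hCC : CC C Γ) (U : Submodule ℝ (V n)) {g : GL (Fin n) ℝ} (hg : g ∈ Γ) {s : ℝ}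
    (hs : 0 < s) (y : V n) : Bd C (img g U) (s • act g y) ↔ Bd C U y := by
  have himg := (Pool.Agent.PFJ.H32.img n).2.1
  have hmem : s • act g y ∈ img g U ↔ y ∈ U := by
    rw [Submodule.smul_mem_iff _ hs.ne', himg]
  have h0 : s • act g y ≠ 0 ↔ y ≠ 0 := by
    rw [not_iff_not, smul_eq_zero]
    constructor
    · rintro (h | h)
      · exact absurd h hs.ne'
      · exact CC.act_injective g (h.trans (CC.act_zero g).symm)
    · rintro rfl
      exact Or.inr (CC.act_zero g)
  unfold Bd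
  rw [hmem, hCC.sact_cl_iff hg hs, h0, unt_act hCC U hg hs]

/-- **BF2** -/
theorem bf2 (_bxc : BxcStmt) (bf1 : Bf1Stmt) : Bf2Stmt := by
  intro n C Γ hCC hmax U v hB
  have hP : PCone C := hCC.toPCone
  obtain ⟨hvL, hvc, hv0, hvU, hstr, hC, ⟨f0, hf0⟩, hlam, -⟩ := bf1 n C Γ hCC hmax U v hB
  have htri : ∀ e e', Bd C U e → Bd C U e' → Ind2 e e' → IsPES C Γ ![e, e', v] :=
    fun e e' he he' hi => tri hCC hvL hstr hC hlam he he' hi
  have hsplit : ∀ f, Unt C U f → ∀ e, Bd C U e → ∃ (τ : ℝ) (e' : V n), 0 < τ ∧ Bd C U e' ∧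
      Ind2 e e' ∧ f = τ • e + e' := fun f hf e he => split hP hf he
  -- a boundary element
  have hexB : ∃ e, Bd C U e := by
    obtain ⟨e, he, e', he', hpes⟩ := hB.pes
    refine ⟨e, he, hCC.hul.lamCl e (hpes.2 0), hCC.hul.lamNe e (hpes.2 0), fun hu => ?_⟩
    have h1 := (hC e he 1).mpr ⟨hu, one_pos⟩
    refine hpes.1.bd ![1, 0, 1] ?_ ⟨1, rfl⟩ ?_
    · intro i
      fin_cases i
      · exact zero_le_one
      · exact le_rfl
      · exact zero_le_one
    · rw [Fin.sum_univ_three]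
      show (1 : ℝ) • e + (0 : ℝ) • e' + (1 : ℝ) • v ∈ C
      rw [one_smul, zero_smul, add_zero]
      exact h1
  have hgen : ∀ N : Submodule ℝ (V n), (∀ e, Bd C U e → e ∈ N) → U ≤ N := by
    intro N hN z hz
    obtain ⟨e, he⟩ := hexB
    have hu : ∀ f, Unt C U f → f ∈ N := by
      intro f hf
      obtain ⟨τ, e', -, he', -, hfe⟩ := hsplit f hf e he
      rw [hfe]
      exact N.add_mem (N.smul_mem _ (hN e he)) (hN e' he')
    obtain ⟨ε, hε, hfz⟩ := (Pool.Agent.PFJ.H76.unf n C hP U f0 hf0).2.2.2.1 z hz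
    have h1 : ε • z ∈ N := by
      have h2 := N.sub_mem (hu f0 hf0) (hu _ hfz)
      rwa [sub_sub_cancel] at h2
    exact (Submodule.smul_mem_iff N hε.ne').mp h1
  have hout : ∀ x y : V n, ∃ e, Bd C U e ∧ ∀ a b : ℝ, e ≠ a • x + b • y := by
    intro x y
    classical
    by_contra hcon
    push Not at hcon
    have h1 : U ≤ Submodule.span ℝ (({x, y} : Finset (V n)) : Set (V n)) := by
      apply hgen
      intro e he
      obtain ⟨a, b, hab⟩ := hcon e he
      rw [hab]
      exact Submodule.add_mem _ (Submodule.smul_mem _ _ (Submodule.subset_span (by simp)))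
        (Submodule.smul_mem _ _ (Submodule.subset_span (by simp)))
    have h2 := Submodule.finrank_mono h1
    have h3 : Module.finrank ℝ (Submodule.span ℝ (({x, y} : Finset (V n)) : Set (V n))) ≤ 2 :=
      (finrank_span_finset_le_card ({x, y} : Finset (V n))).trans Finset.card_le_two
    have h4 := hB.dim
    omega
  refine ⟨htri, hsplit, hgen, hout, ?_, ?_, ?_⟩
  · intro c hc
    refine ⟨hB.dim, ?_, ?_⟩
    · obtain ⟨e, he, e', he', hpes⟩ := hB.pes
      refine ⟨e, he, e', he', ?_⟩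
      have h1 := (Pool.Agent.PFS.H60.elm n C Γ hCC (Fin 3) _ hpes).1 ![1, 1, c] (by
        intro i
        fin_cases i
        · exact one_pos
        · exact one_pos
        · exact hc)
      have h2 : (fun i => (![1, 1, c] : Fin 3 → ℝ) i • (![e, e', v] : Fin 3 → V n) i) =
          ![e, e', c • v] := by
        funext i
        fin_cases i
        · exact one_smul ℝ e
        · exact one_smul ℝ e'
        · rfl
      rwa [h2] at h1
    · intro y hy τ hyτ
      rw [smul_smul] at hyτ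
      obtain ⟨h1, h2⟩ := hB.comp y hy _ hyτ
      exact ⟨h1, nonneg_of_mul_nonneg_left h2 hc⟩
  · intro g hg s hs
    have himg := Pool.Agent.PFJ.H32.img n
    refine ⟨⟨?_, ?_, ?_⟩, unt_act hCC U hg hs, bd_act hCC U hg hs⟩
    · rw [himg.1]
      exact hB.dim
    · obtain ⟨e, he, e', he', hpes⟩ := hB.pes
      refine ⟨s • act g e, (img g U).smul_mem s ((himg.2.1 g U e).mpr he), s • act g e',
        (img g U).smul_mem s ((himg.2.1 g U e').mpr he'), ?_⟩
      have h1 := (Pool.Agent.PFS.H60.elm n C Γ hCC (Fin 3) _ hpes).2.1 g hg s hs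
      have h2 : (fun i => s • act g ((![e, e', v] : Fin 3 → V n) i)) =
          ![s • act g e, s • act g e', s • act g v] := by
        funext i
        fin_cases i
        · rfl
        · rfl
        · rfl
      rwa [h2] at h1
    · intro y hy τ hyτ
      obtain ⟨y', hy', rfl⟩ := mem_img.mp hy
      have h1 : act g y' + τ • s • act g v = s • act g (s⁻¹ • y' + τ • v) := by
        rw [CC.act_add, CC.act_smul, CC.act_smul, smul_add, smul_smul s s⁻¹,
          mul_inv_cancel₀ hs.ne', one_smul, smul_comm s τ]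
      rw [h1, hCC.sact_cl_iff hg hs] at hyτ
      obtain ⟨h2, h3⟩ := hB.comp _ (U.smul_mem _ hy') _ hyτ
      exact ⟨hCC.act_cl hg ((hP.cl_smul_iff (inv_pos.mpr hs)).mp h2), h3⟩
  · intro a ha z hz hazC
    obtain ⟨e, he, hne⟩ := hout a 0
    have hi : Ind2 a e := by
      intro s t hst
      have ht : t = 0 := by
        by_contra ht
        apply hne (-(s / t)) 0
        rw [zero_smul, add_zero]
        have h2 : t • e = -(s • a) := by
          rw [add_comm] at hst
          exact eq_neg_of_add_eq_zero_left hst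
        have h3 : e = t⁻¹ • (t • e) := by
          rw [smul_smul, inv_mul_cancel₀ ht, one_smul]
        rw [h3, h2, smul_neg, smul_smul, ← neg_smul]
        congr 1
        field_simp
      refine ⟨?_, ht⟩
      rw [ht, zero_smul, add_zero] at hst
      exact (smul_eq_zero.mp hst).resolve_right ha.2.2.1
    have h1 := Pool.Agent.PFJ.H10.fmx n C Γ hCC 3 le_rfl hmax ![a, e, v] 1 z
      (htri a e ha he hi) hz
    rw [sum_erase_one] at h1
    exact h1 hazC

end Pool.Agent.PCO.H23
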